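import Pool.Agent.Helper99.WP.GoalsK

open Finset

namespace Pool.Agent.Helper71.WP

open Pool.Agent.Helper99.WP
open Pool.Agent.Helper99.ERW

lemma dns_lap_mul {d : ℕ} (p : Site d → Fin d → ℝ) (u : Site d → ℝ) (a : ℝ) (x : Site d) :
    lap p (fun z => a * u z) x = a * lap p u x := by
  unfold lap
  rw [Finset.mul_sum]
  refine Finset.sum_congr rfl fun l _ => ?_
  ring

/-- PACKET DNS. -/
theorem DNS (hGEX : GEX_stmt) (hGCM : GCM_stmt) (hQQQ : QQQ_stmt) (hABP : ABP_stmt)
    (hEXT : EXT_stmt) (hBAR : BAR_stmt) : DNS_stmt := by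
  intro d κ hκ lam
  obtain ⟨K0, c0, hc0, hbar⟩ := hBAR d κ hκ (2 * d * lam)
  refine ⟨K0 + 1, min (1 / 2) ((κ / (8 * d)) ^ d), c0 / 2, ?_, ?_, by positivity, ?_⟩
  · rcases Nat.eq_zero_or_pos d with h | h
    · subst h; norm_num
    · have hd : (0 : ℝ) < d := by exact_mod_cast h
      exact lt_min (by norm_num) (by positivity)
  · exact (min_le_left _ _).trans_lt (by norm_num)
  intro p hp r y A hA hcardA z hz
  have hdpos : 0 < d := by
    rcases Nat.eq_zero_or_pos d with h | h
    · subst h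
      have := (hp 0).2
      simp at this
    · exact h
  have hd : (0 : ℝ) < d := by exact_mod_cast hdpos
  have hd1 : (1 : ℝ) ≤ d := by exact_mod_cast hdpos
  obtain ⟨qmem, qcard, -, -, -, qmono⟩ := hQQQ d
  set s : ℝ := (r : ℝ) + 1 with hs
  have hs0 : 0 < s := by positivity
  set D := Q ((K0 + 1) * (r + 1)) y with hD
  obtain ⟨⟨hG0, hG1⟩, -⟩ := hGEX d κ p hκ hp D (ind A)
  obtain ⟨-, -, -, hGnn, -, -, -⟩ := hGCM d κ p hκ hp D
  have hindnn : ∀ x : Site d, 0 ≤ ind A x := fun x => by unfold ind; split_ifs <;> norm_num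
  have hindle : ∀ x : Site d, ind A x ≤ 1 := fun x => by unfold ind; split_ifs <;> norm_num
  have hGpos : ∀ x, 0 ≤ Gr p D (ind A) x := hGnn _ fun x _ => hindnn x
  have hrD : r ≤ (K0 + 1) * (r + 1) := by nlinarith [Nat.zero_le (K0 * (r + 1))]
  -- main estimate in the small cube
  have hmain : ∀ x ∈ Q (r / (2 * d)) y, s ^ 2 / 2 ≤ Gr p D (ind A) x := by
    intro x hx
    have hxr : x ∈ Q r y := qmono _ _ _ (Nat.div_le_self _ _) hx
    obtain ⟨-, -, -, -, hlin, hdom, -⟩ := hGCM d κ p hκ hp (Q r y)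
    have h1 : Gr p (Q r y) (ind A) x ≤ Gr p D (ind A) x :=
      hdom D (qmono _ _ _ hrD) (ind A) (fun x _ => hindnn x) x
    refine le_trans ?_ h1
    have h2 := congrFun (hlin (fun _ => 1) (ind A) 1 (-1)) x
    simp only [one_mul, neg_mul, mul_one] at h2
    -- exit time
    have h3 := (hEXT d κ p hκ hp r y).2 x hxr
    have h4 : ∑ l, ((x l - y l : ℤ) : ℝ) ^ 2 ≤ s ^ 2 / 4 := by
      have h5 : ∀ l, ((x l - y l : ℤ) : ℝ) ^ 2 ≤ ((r : ℝ) / (2 * d)) ^ 2 := by
        intro l
        have h6 := (qmem _ _ _).mp hx l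
        have h7 : |((x l - y l : ℤ) : ℝ)| ≤ ((r / (2 * d) : ℕ) : ℝ) := by
          have h := (Int.cast_le (R := ℝ)).mpr h6
          rw [Int.cast_abs, Int.cast_natCast] at h
          exact h
        have h8 : ((r / (2 * d) : ℕ) : ℝ) ≤ (r : ℝ) / (2 * d) := by
          have := @Nat.cast_div_le ℝ _ _ _ r (2 * d)
          push_cast at this
          exact this
        rw [← sq_abs]
        exact pow_le_pow_left₀ (abs_nonneg _) (h7.trans h8) 2
      calc ∑ l, ((x l - y l : ℤ) : ℝ) ^ 2 ≤ ∑ _l : Fin d, ((r : ℝ) / (2 * d)) ^ 2 :=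
            Finset.sum_le_sum fun l _ => h5 l
        _ = (r : ℝ) ^ 2 / (4 * d) := by
            rw [Finset.sum_const, Finset.card_univ, Fintype.card_fin, nsmul_eq_mul]
            field_simp
            ring
        _ ≤ s ^ 2 / 4 := by
            rw [div_le_div_iff₀ (by positivity) (by norm_num)]
            have hr0 : (0 : ℝ) ≤ r := Nat.cast_nonneg r
            have h9 : (r : ℝ) ^ 2 ≤ s ^ 2 := by rw [hs]; nlinarith
            nlinarith [sq_nonneg s]
    -- ABP
    have h5 := hABP d κ p hκ hp r y (Q r y) subset_rfl (fun x => 1 + -ind A x)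
      (fun x => by have := hindle x; linarith) x
    have h6 : ∑ z ∈ Q r y, (1 + -ind A z) ^ d = ((Q r y).card : ℝ) - A.card := by
      have h7 : ∀ z ∈ Q r y, (1 + -ind A z) ^ d = 1 - (if z ∈ A then (1 : ℝ) else 0) := by
        intro z _
        unfold ind
        split_ifs
        · simp [hdpos.ne']
        · simp
      rw [Finset.sum_congr rfl h7, Finset.sum_sub_distrib]
      simp only [Finset.sum_const, nsmul_eq_mul, mul_one]
      rw [Finset.sum_ite_mem, Finset.inter_eq_right.mpr hA]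
      simp
    have h7 : ((Q r y).card : ℝ) - A.card ≤ (κ / (8 * d)) ^ d * (2 * r + 1) ^ d := by
      have h8 : ((Q r y).card : ℝ) = (2 * r + 1) ^ d := by
        rw [qcard]; push_cast; ring
      have h9 : min (1 / 2) ((κ / (8 * d)) ^ d) * ((Q r y).card : ℝ) ≤
          (κ / (8 * d)) ^ d * ((Q r y).card : ℝ) :=
        mul_le_mul_of_nonneg_right (min_le_right _ _) (Nat.cast_nonneg _)
      rw [← h8]
      linarith
    have h8 : Gr p (Q r y) (fun x => 1 + -ind A x) x ≤ s ^ 2 / 4 := by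
      have h9 : (κ * Gr p (Q r y) (fun x => 1 + -ind A x) x) ^ d ≤ (κ * (s ^ 2 / 4)) ^ d := by
        calc (κ * Gr p (Q r y) (fun x => 1 + -ind A x) x) ^ d
            ≤ ((d : ℝ) * s) ^ d * ((κ / (8 * d)) ^ d * (2 * r + 1) ^ d) := by
              refine h5.trans ?_
              rw [h6]
              exact mul_le_mul_of_nonneg_left h7 (by positivity)
          _ = (κ * (s * (2 * r + 1) / 8)) ^ d := by
              rw [← mul_pow, ← mul_pow]
              congr 1
              field_simp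
          _ ≤ (κ * (s ^ 2 / 4)) ^ d := by
              refine pow_le_pow_left₀ (by positivity) ?_ d
              refine mul_le_mul_of_nonneg_left ?_ hκ.le
              have : (2 * (r : ℝ) + 1) ≤ 2 * s := by rw [hs]; linarith
              nlinarith
      have h10 : κ * Gr p (Q r y) (fun x => 1 + -ind A x) x ≤ κ * (s ^ 2 / 4) :=
        le_of_pow_le_pow_left₀ hdpos.ne' (by positivity) h9
      exact le_of_mul_le_mul_left h10 hκ
    have h9 : ((r : ℝ) + 1) ^ 2 = s ^ 2 := rfl
    rw [h9] at h3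
    linarith
  -- barrier
  have h1 := hbar p hp (r / (2 * d)) y (fun x => (2 / s ^ 2) * Gr p D (ind A) x) ?_ ?_ ?_ z ?_
  · have h2 : c0 ≤ 2 / s ^ 2 * Gr p D (ind A) z := h1
    have h3 : Gr p D (ind A) z = s ^ 2 / 2 * (2 / s ^ 2 * Gr p D (ind A) z) := by
      field_simp
    rw [h3]
    calc c0 / 2 * s ^ 2 = s ^ 2 / 2 * c0 := by ring
      _ ≤ _ := mul_le_mul_of_nonneg_left h2 (by positivity)
  · intro x hx _
    rw [dns_lap_mul]
    have hxD : x ∈ D := by
      refine qmono _ _ _ ?_ hx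
      calc K0 * (r / (2 * d) + 1) ≤ K0 * (r + 1) :=
            Nat.mul_le_mul_left _ (Nat.succ_le_succ (Nat.div_le_self _ _))
        _ ≤ (K0 + 1) * (r + 1) := Nat.mul_le_mul_right _ (Nat.le_succ _)
    rw [hG1 x hxD]
    have := mul_nonneg (by positivity : (0 : ℝ) ≤ 2 / s ^ 2) (hindnn x)
    linarith
  · intro x _
    exact mul_nonneg (by positivity) (hGpos x)
  · intro x hx
    have h2 := hmain x hx
    have h3 := mul_le_mul_of_nonneg_left h2 (by positivity : (0 : ℝ) ≤ 2 / s ^ 2)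
    refine le_trans (le_of_eq ?_) h3
    field_simp
  · refine qmono _ _ _ ?_ hz
    have h2 : r + 1 ≤ 2 * d * (r / (2 * d) + 1) := by
      have := Nat.lt_mul_div_succ r (by omega : 0 < 2 * d)
      exact this
    calc lam * (r + 1) ≤ lam * (2 * d * (r / (2 * d) + 1)) := Nat.mul_le_mul_left _ h2
      _ = 2 * d * lam * (r / (2 * d) + 1) := by ring

end Pool.Agent.Helper71.WP
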