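import Pool.Agent.Helper99.WP.GoalsE
import Pool.Agent.Helper99.ERW.TransientAll
import Pool.Agent.Helper99.ERW.Levy

open Finset MeasureTheory ProbabilityTheory Filter

namespace Pool.Agent.Helper71.WP

open Pool.Agent.Helper99.WP
open Pool.Agent.Helper99.ERW

universe u

lemma pv_le {d : ℕ} (x : ℕ → Site d) (n : ℕ) : pastVisits x n ≤ n := by
  unfold pastVisits
  refine (Finset.card_filter_le _ _).trans ?_
  simp

lemma pv_lt {d : ℕ} (x : ℕ → Site d) {m n : ℕ} (hmn : m < n) (h : x m = x n) :
    pastVisits x m < pastVisits x n := by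
  unfold pastVisits
  apply Finset.card_lt_card
  refine ⟨?_, ?_⟩
  · intro r hr
    simp only [Finset.mem_filter, Finset.mem_range] at hr ⊢
    exact ⟨hr.1.trans hmn, hr.2.trans h⟩
  · intro hsub
    have : m ∈ (Finset.range m).filter (fun r => x r = x m) := hsub (by
      simp only [Finset.mem_filter, Finset.mem_range]
      exact ⟨hmn, h⟩)
    simp at this

lemma meas_AtV {d : ℕ} {Ω : Type u} [MeasurableSpace Ω] {P : Measure (Env d)}
    {μ : Measure Ω} {env : Ω → Env d} {X : ℕ → Ω → Site d} (h : IsERW P μ env X) (i m : ℕ) :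
    MeasurableSet (AtV X i m) := by
  have h1 : MeasurableSet {w | X m w = 0} := h.measurable_walk m (measurableSet_singleton 0)
  have h2 : Measurable fun w => pastVisits (fun k => X k w) m :=
    (measurable_pastVisits_hist env X le_rfl).mono (h.hist_le m) le_rfl
  have h3 : MeasurableSet {w | pastVisits (fun k => X k w) m = i} :=
    h2 (measurableSet_singleton i)
  exact h1.inter h3

/-- PACKET FV3. -/
theorem FV3 (hSM3 : SM3_stmt.{u}) : FV3_stmt.{u} := by
  intro d hd κ hκ Ω mΩ P hP μ hμ env X h hok hst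
  obtain ⟨C, hC0, hC⟩ := hSM3 d hd κ hκ
  have hC := hC Ω mΩ P μ env X h hok hst
  have hUEL : UEL P := ⟨κ, hκ, by filter_upwards [hok] with ω hω using hω.2.2⟩
  have hX0 : ∀ m, MeasurableSet {w | X m w = 0} := fun m =>
    h.measurable_walk m (measurableSet_singleton 0)
  -- partial sums
  have hsum : ∀ M : ℕ, ∑ m ∈ Finset.range (M + 1), μ {w | X m w = 0} ≤ ENNReal.ofReal C := by
    intro M
    refine le_trans ?_ (hC M)
    have e1 : ∀ i, μ (⋃ m ∈ Finset.range (M + 1), AtV X i m) =
        ∑ m ∈ Finset.range (M + 1), μ (AtV X i m) := by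
      intro i
      rw [measure_biUnion_finset]
      · intro m hm m' hm' hne
        rw [Function.onFun, Set.disjoint_left]
        rintro w ⟨ha, hb⟩ ⟨ha', hb'⟩
        rcases lt_or_gt_of_ne hne with hlt | hlt
        · have := pv_lt (fun k => X k w) hlt (ha.trans ha'.symm)
          omega
        · have := pv_lt (fun k => X k w) hlt (ha'.trans ha.symm)
          omega
      · intro m _
        exact meas_AtV h i m
    simp_rw [e1]
    rw [Finset.sum_comm]
    refine Finset.sum_le_sum fun m hm => ?_
    have hsub : {w | X m w = 0} ⊆ ⋃ i ∈ Finset.range (M + 2), AtV X i m := by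
      intro w hw
      simp only [Set.mem_iUnion, exists_prop]
      refine ⟨pastVisits (fun k => X k w) m, ?_, hw, rfl⟩
      have := pv_le (fun k => X k w) m
      rw [Finset.mem_range] at hm ⊢
      omega
    exact (measure_mono hsub).trans (measure_biUnion_finset_le _ _)
  have htsum : ∑' m, μ {w | X m w = 0} ≠ ⊤ := by
    have : ∑' m, μ {w | X m w = 0} ≤ ENNReal.ofReal C := by
      rw [ENNReal.tsum_eq_iSup_nat]
      refine iSup_le fun n => ?_
      refine le_trans ?_ (hsum n)
      exact Finset.sum_le_sum_of_subset (Finset.range_mono (Nat.le_succ n))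
    exact ne_top_of_le_ne_top ENNReal.ofReal_ne_top this
  have hfin0 : ∀ᵐ w ∂μ, {n | X n w = 0}.Finite := by
    filter_upwards [ae_finite_setOfPred_mem htsum] with w hw
    exact hw
  have hstep : ∀ᵐ w ∂μ, ∀ (z : Site d) (e : Dir d),
      (∃ᶠ n in atTop, X n w = z) → ∃ᶠ n in atTop, X n w = z + vec e := by
    rw [ae_all_iff]
    intro z
    rw [ae_all_iff]
    intro e
    exact h.io_step hUEL z e
  filter_upwards [hfin0, hstep] with w hw0 hws
  have hw : ∀ z : Site d, {n | X n w = z}.Finite := by
    intro z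
    by_contra hinf
    have hfr : ∃ᶠ n in atTop, X n w = z := by
      rw [Nat.frequently_atTop_iff_infinite]
      exact hinf
    have h0 := forall_of_step (fun z => ∃ᶠ n in atTop, X n w = z) (fun z hz e => hws z e hz) z hfr 0
    rw [Nat.frequently_atTop_iff_infinite] at h0
    exact h0 hw0
  rw [tendsto_atTop]
  intro b
  have hfinb : (⋃ z ∈ box d ⌈b⌉₊, {n | X n w = z}).Finite :=
    Set.Finite.biUnion (Finset.finite_toSet _) fun z _ => hw z
  filter_upwards [hfinb.eventually_cofinite_notMem.filter_mono Nat.cofinite_eq_atTop.ge] with n hn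
  by_contra hcon
  push Not at hcon
  apply hn
  simp only [Set.mem_iUnion, Set.mem_ofPred_eq, exists_prop]
  refine ⟨X n w, ?_, rfl⟩
  rw [mem_box]
  intro l
  have h1 : ‖X n w l‖ ≤ ‖X n w‖ := norm_le_pi_norm _ l
  have h2 : |(X n w l : ℝ)| ≤ b := by
    have : ‖X n w l‖ = |(X n w l : ℝ)| := rfl
    rw [← this]
    exact (h1.trans_lt hcon).le
  have h3 : (|X n w l| : ℝ) ≤ (⌈b⌉₊ : ℝ) := h2.trans (Nat.le_ceil b)
  exact_mod_cast h3

end Pool.Agent.Helper71.WP
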