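import Pool.Agent.Helper99.WP.GoalsE

open Finset

namespace Pool.Agent.Helper71.WP

open Pool.Agent.Helper99.WP
open Pool.Agent.Helper99.ERW

variable {d : ℕ}

/-- extension by zero -/
noncomputable def ex0 (Λ : Finset (Site d)) (v : Λ → ℝ) : Site d → ℝ :=
  fun y => if h : y ∈ Λ then v ⟨y, h⟩ else 0

lemma ex0_mem (Λ : Finset (Site d)) (v : Λ → ℝ) (y : Λ) : ex0 Λ v (y : Site d) = v y := by
  unfold ex0
  rw [dif_pos y.2]

lemma ex0_not (Λ : Finset (Site d)) (v : Λ → ℝ) {y : Site d} (hy : y ∉ Λ) : ex0 Λ v y = 0 := by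
  unfold ex0
  rw [dif_neg hy]

lemma vec_true (l : Fin d) : vec (l, true) = ev l := rfl

lemma vec_false (l : Fin d) : vec (l, false) = - ev l := by
  unfold vec ev
  simp only [Bool.false_eq_true, if_false]
  rw [← Pi.single_neg]

lemma sum_dir (ω : Env d) (hb : IsBalanced ω) (f : Site d → ℝ) (y : Site d) (i : ℕ) :
    ∑ e : Dir d, ω y e i * f (y + vec e) =
      ∑ l, ω y (l, true) i * (f (y + ev l) + f (y - ev l)) := by
  rw [Fintype.sum_prod_type]
  refine Finset.sum_congr rfl fun l _ => ?_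
  rw [Fintype.sum_bool, vec_true, vec_false, ← hb y l i, ← sub_eq_add_neg]
  ring

lemma sum_half (ω : Env d) (hb : IsBalanced ω) (y : Site d) (i : ℕ) :
    ∑ e : Dir d, ω y e i = ∑ l, 2 * ω y (l, true) i := by
  rw [Fintype.sum_prod_type]
  refine Finset.sum_congr rfl fun l _ => ?_
  rw [Fintype.sum_bool, ← hb y l i]
  ring

lemma sum_arrW (ω : Env d) (Λ : Finset (Site d)) (v : Λ → ℝ) (y : Λ) (i : ℕ) :
    ∑ z : Λ, arrW ω Λ y i (some z) * v z = ∑ e : Dir d, ω y e i * ex0 Λ v ((y : Site d) + vec e) := by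
  unfold arrW
  simp_rw [Finset.sum_mul]
  rw [Finset.sum_comm]
  refine Finset.sum_congr rfl fun e _ => ?_
  by_cases h : (y : Site d) + vec e ∈ Λ
  · rw [Finset.sum_eq_single (⟨(y : Site d) + vec e, h⟩ : Λ)]
    · rw [if_pos rfl]
      unfold ex0
      rw [dif_pos h]
    · intro z _ hz
      rw [if_neg, zero_mul]
      intro heq
      exact hz (Subtype.ext heq.symm)
    · intro hh
      exact absurd (Finset.mem_univ _) hh
  · rw [ex0_not Λ v h, mul_zero]
    refine Finset.sum_eq_zero fun z _ => ?_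
    rw [if_neg, zero_mul]
    intro heq
    exact h (heq ▸ z.2)

lemma lap_eq (κ : ℝ) (p : Site d → Fin d → ℝ) (hp : Ell κ p) (u : Site d → ℝ) (x : Site d) :
    lap p u x = ∑ l, p x l * (u (x + ev l) + u (x - ev l)) - u x := by
  unfold lap
  have h1 : ∀ l, p x l * (u (x + ev l) + u (x - ev l) - 2 * u x) =
      p x l * (u (x + ev l) + u (x - ev l)) - (2 * p x l) * u x := fun l => by ring
  simp_rw [h1]
  rw [Finset.sum_sub_distrib, ← Finset.sum_mul, (hp x).2, one_mul]

lemma lap_neg (p : Site d → Fin d → ℝ) (u : Site d → ℝ) (x : Site d) :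
    lap p (fun z => - u z) x = - lap p u x := by
  unfold lap
  rw [← Finset.sum_neg_distrib]
  refine Finset.sum_congr rfl fun l _ => ?_
  ring

lemma lap_sub (p : Site d → Fin d → ℝ) (u v : Site d → ℝ) (x : Site d) :
    lap p (fun z => u z - v z) x = lap p u x - lap p v x := by
  unfold lap
  rw [← Finset.sum_sub_distrib]
  refine Finset.sum_congr rfl fun l _ => ?_
  ring

lemma isW_arrW (ω : Env d) (hω : IsCookieEnv ω) (Λ : Finset (Site d)) : IsW (arrW ω Λ) := by
  intro y k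
  refine ⟨?_, ?_⟩
  · intro c
    cases c with
    | none =>
      unfold arrW
      refine Finset.sum_nonneg fun e _ => ?_
      split_ifs
      · exact le_rfl
      · exact (hω _ _).1 _
    | some z =>
      unfold arrW
      refine Finset.sum_nonneg fun e _ => ?_
      split_ifs
      · exact (hω _ _).1 _
      · exact le_rfl
  · rw [Fintype.sum_option]
    have h1 := sum_arrW ω Λ (fun _ => 1) y k
    simp only [mul_one] at h1
    rw [h1]
    have h2 : arrW ω Λ y k none = ∑ e : Dir d, if (y : Site d) + vec e ∈ Λ then 0 else ω y e k := rfl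
    rw [h2, ← Finset.sum_add_distrib]
    refine Eq.trans ?_ (hω (y : Site d) k).2
    refine Finset.sum_congr rfl fun e _ => ?_
    unfold ex0
    split_ifs <;> simp

/-- PACKET LN1. -/
theorem LN1 (hMTT : MTT_stmt) (hMXP : MXP_stmt) (hGEX : GEX_stmt) (hGCM : GCM_stmt) :
    LN1_stmt := by
  classical
  intro d κ ω Λ N n hκ hok hn
  obtain ⟨hce, hbal, hel⟩ := hok
  -- the dimension
  have hsum1 : ∀ z i, ∑ l : Fin d, 2 * ω z (l, true) i = 1 := fun z i => by
    rw [← sum_half ω hbal z i]; exact (hce z i).2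
  have hcard : (d : ℝ) * (2 * κ) ≤ 1 := by
    rw [← hsum1 0 0]
    have : ∑ _l : Fin d, 2 * κ ≤ ∑ l : Fin d, 2 * ω 0 (l, true) 0 :=
      Finset.sum_le_sum fun l _ => by
        have := hel 0 (l, true) 0
        linarith
    simpa using this
  have hd : 0 < (d : ℝ) := by
    rcases Nat.eq_zero_or_pos d with h | h
    · subst h
      have := hsum1 0 0
      simp at this
    · exact_mod_cast h
  have hEll : Ell κ (pst ω Λ n) := by
    intro x
    by_cases hx : x ∈ Λ
    · have h1 : ∀ l, pst ω Λ n x l = ω x (l, true) (n ⟨x, hx⟩) := fun l => by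
        unfold pst; rw [dif_pos hx]
      simp_rw [h1]
      exact ⟨fun l => hel _ _ _, hsum1 _ _⟩
    · have h1 : ∀ l, pst ω Λ n x l = 1 / (2 * d) := fun l => by
        unfold pst; rw [dif_neg hx]
      simp_rw [h1]
      refine ⟨fun l => ?_, ?_⟩
      · rw [le_div_iff₀ (by positivity)]
        linarith
      · rw [Finset.sum_const, Finset.card_univ, Fintype.card_fin]
        simp only [nsmul_eq_mul]
        field_simp
  have hW : IsW (arrW ω Λ) := isW_arrW ω hce Λ
  set w := rowW (arrW ω Λ) N n with hw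
  set p := pst ω Λ n with hp
  have hrow : ∀ y, ∑ c, w y c = 1 := by
    intro y
    rw [hw]
    unfold rowW
    split_ifs
    · exact (hW _ _).2
    · simp
  have hdet := hMTT Λ w hrow
  -- the matrix on vectors
  have hmv1 : ∀ (v : Λ → ℝ) (y : Λ), n y < N →
      ((1 - Tmat w).mulVec v) y = - lap p (ex0 Λ v) y := by
    intro v y hy
    rw [Matrix.sub_mulVec, Matrix.one_mulVec, Pi.sub_apply]
    have h1 : (Tmat w).mulVec v y = ∑ z : Λ, arrW ω Λ y (n y) (some z) * v z := by
      rw [Matrix.mulVec, dotProduct]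
      refine Finset.sum_congr rfl fun z _ => ?_
      rw [hw]
      unfold Tmat rowW
      rw [if_pos hy]
    rw [h1, sum_arrW, sum_dir ω hbal, lap_eq κ p hEll, ex0_mem]
    have h2 : ∀ l, p (y : Site d) l = ω y (l, true) (n y) := fun l => by
      rw [hp]; unfold pst; rw [dif_pos y.2]
    simp_rw [h2]
    ring
  have hmv2 : ∀ (v : Λ → ℝ) (y : Λ), ¬ n y < N → ((1 - Tmat w).mulVec v) y = v y := by
    intro v y hy
    rw [Matrix.sub_mulVec, Matrix.one_mulVec, Pi.sub_apply]
    have h1 : (Tmat w).mulVec v y = 0 := by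
      rw [Matrix.mulVec, dotProduct]
      refine Finset.sum_eq_zero fun z _ => ?_
      rw [hw]
      unfold Tmat rowW
      rw [if_neg hy]
      simp
    rw [h1, sub_zero]
  set D : Finset (Site d) := Λ.filter (fun y => ∃ h : y ∈ Λ, n ⟨y, h⟩ < N) with hD
  have hDmem : ∀ y : Site d, y ∈ D → ∃ h : y ∈ Λ, n ⟨y, h⟩ < N := fun y hy =>
    (Finset.mem_filter.mp hy).2
  have hDnot : ∀ y : Λ, (y : Site d) ∉ D → ¬ n y < N := fun y hy hlt =>
    hy (Finset.mem_filter.mpr ⟨y.2, y.2, hlt⟩)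
  have hker : DD w ≠ 0 := by
    rw [← hdet]
    intro h0
    obtain ⟨v, hv0, hv⟩ := Matrix.exists_mulVec_eq_zero_iff.mpr h0
    apply hv0
    have hoff : ∀ y, y ∉ D → ex0 Λ v y = 0 := by
      intro y hy
      by_cases hyΛ : y ∈ Λ
      · have h1 := hmv2 v ⟨y, hyΛ⟩ (hDnot ⟨y, hyΛ⟩ hy)
        rw [hv] at h1
        have h2 := ex0_mem Λ v ⟨y, hyΛ⟩
        simp only at h2
        rw [h2, ← h1]
        rfl
      · exact ex0_not Λ v hyΛ
    have hlap : ∀ y ∈ D, lap p (ex0 Λ v) y = 0 := by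
      intro y hy
      obtain ⟨hyΛ, hlt⟩ := hDmem y hy
      have h1 := hmv1 v ⟨y, hyΛ⟩ hlt
      rw [hv] at h1
      simp only [Pi.zero_apply] at h1
      linarith
    have hle : ∀ y ∈ D, ex0 Λ v y ≤ 0 := hMXP d κ p hκ hEll D (ex0 Λ v)
      (fun x hx => (hlap x hx).ge)
      (fun x _ l => ⟨fun h => (hoff _ h).le, fun h => (hoff _ h).le⟩)
    have hge : ∀ y ∈ D, - ex0 Λ v y ≤ 0 := hMXP d κ p hκ hEll D (fun z => - ex0 Λ v z)
      (fun x hx => by rw [lap_neg, hlap x hx]; simp)
      (fun x _ l => ⟨fun h => by have h9 := hoff _ h; simp only; linarith,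
        fun h => by have h9 := hoff _ h; simp only; linarith⟩)
    funext y
    have h3 := ex0_mem Λ v y
    rw [← h3]
    by_cases hy : (y : Site d) ∈ D
    · have h4 := hle _ hy
      have h5 := hge _ hy
      simp only [Pi.zero_apply]
      linarith
    · exact hoff _ hy
  refine ⟨hEll, hW, hker, fun x => ?_⟩
  have hunit : IsUnit (1 - Tmat w).det := by
    rw [hdet]
    exact isUnit_iff_ne_zero.mpr hker
  set v : Λ → ℝ := fun z => Gmat w z x with hvdef
  have hcol : ∀ y : Λ, ((1 - Tmat w).mulVec v) y = if y = x then 1 else 0 := by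
    intro y
    have h1 : (1 - Tmat w) * Gmat w = 1 := Matrix.mul_nonsing_inv _ hunit
    have h2 : ((1 - Tmat w) * Gmat w) y x = (1 : Matrix Λ Λ ℝ) y x := by rw [h1]
    rw [Matrix.mul_apply, Matrix.one_apply] at h2
    rw [Matrix.mulVec, dotProduct]
    exact h2
  have hg := hGEX d κ p hκ hEll Λ (ind {(x : Site d)})
  obtain ⟨⟨hg0, hg1⟩, hguniq⟩ := hg
  obtain ⟨-, -, -, hgnn, -⟩ := hGCM d κ p hκ hEll Λ
  have hgpos : ∀ z, 0 ≤ Gr p Λ (ind {(x : Site d)}) z := hgnn _ (fun z _ => by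
    unfold ind; split_ifs <;> norm_num)
  have hind : ∀ y : Λ, ind {(x : Site d)} (y : Site d) = if y = x then 1 else 0 := by
    intro y
    unfold ind
    simp only [Finset.mem_singleton, Subtype.ext_iff]
  have hgx : 1 ≤ Gr p Λ (ind {(x : Site d)}) x := by
    have h1 := hg1 x x.2
    rw [lap_eq κ p hEll, hind x, if_pos rfl] at h1
    have h2 : 0 ≤ ∑ l, p x l * (Gr p Λ (ind {(x : Site d)}) ((x : Site d) + ev l) +
        Gr p Λ (ind {(x : Site d)}) ((x : Site d) - ev l)) :=
      Finset.sum_nonneg fun l _ => mul_nonneg (hκ.le.trans ((hEll _).1 l))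
        (add_nonneg (hgpos _) (hgpos _))
    linarith
  have hoffv : ∀ y, y ∉ D → 0 ≤ ex0 Λ v y ∧ ex0 Λ v y ≤ Gr p Λ (ind {(x : Site d)}) y := by
    intro y hy
    by_cases hyΛ : y ∈ Λ
    · have h1 := hmv2 v ⟨y, hyΛ⟩ (hDnot ⟨y, hyΛ⟩ hy)
      rw [hcol] at h1
      have h2 := ex0_mem Λ v ⟨y, hyΛ⟩
      simp only at h2
      rw [h2, ← h1]
      split_ifs with hyx
      · refine ⟨zero_le_one, ?_⟩
        have : y = (x : Site d) := congrArg Subtype.val hyx
        rw [this]
        exact hgx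
      · exact ⟨le_rfl, hgpos y⟩
    · rw [ex0_not Λ v hyΛ]
      exact ⟨le_rfl, hgpos y⟩
  have hlapv : ∀ y ∈ D, lap p (ex0 Λ v) y = - ind {(x : Site d)} y := by
    intro y hy
    obtain ⟨hyΛ, hlt⟩ := hDmem y hy
    have h1 := hmv1 v ⟨y, hyΛ⟩ hlt
    rw [hcol, ← hind ⟨y, hyΛ⟩] at h1
    simp only at h1
    linarith
  have hvge : ∀ y ∈ D, - ex0 Λ v y ≤ 0 := hMXP d κ p hκ hEll D (fun z => - ex0 Λ v z)
    (fun y hy => by
      rw [lap_neg, hlapv y hy, neg_neg]
      unfold ind; split_ifs <;> norm_num)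
    (fun y _ l => ⟨fun h => by have := (hoffv _ h).1; linarith,
      fun h => by have := (hoffv _ h).1; linarith⟩)
  have hvle : ∀ y ∈ D, ex0 Λ v y - Gr p Λ (ind {(x : Site d)}) y ≤ 0 :=
    hMXP d κ p hκ hEll D (fun z => ex0 Λ v z - Gr p Λ (ind {(x : Site d)}) z)
    (fun y hy => by
      rw [lap_sub, hlapv y hy, hg1 y (Finset.mem_filter.mp hy).1]
      simp)
    (fun y _ l => ⟨fun h => by have := (hoffv _ h).2; linarith,
      fun h => by have := (hoffv _ h).2; linarith⟩)
  have hvx : ex0 Λ v (x : Site d) = Gmat w x x := ex0_mem Λ v x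
  refine ⟨?_, ?_, ?_⟩
  · rw [← hvx]
    by_cases hx : (x : Site d) ∈ D
    · have := hvge _ hx
      linarith
    · exact (hoffv _ hx).1
  · rw [← hvx]
    unfold gg
    by_cases hx : (x : Site d) ∈ D
    · have := hvle _ hx
      linarith
    · exact (hoffv _ hx).2
  · intro hall
    rw [← hvx]
    unfold gg
    have hsol : IsSol p Λ (ind {(x : Site d)}) (ex0 Λ v) := by
      refine ⟨fun y hy => ex0_not Λ v hy, fun y hy => ?_⟩
      exact hlapv y (Finset.mem_filter.mpr ⟨hy, hy, hall _⟩)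
    exact congrFun (hguniq _ hsol) _

end Pool.Agent.Helper71.WP
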